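import Pool.Agent.H79.BR.Targets

/-!
Module CGA: a Gaussian integral.
-/

set_option autoImplicit false

namespace Pool.Agent.H18.BR

open MeasureTheory Set FourierTransform
open Pool.Agent.H83.LS Pool.Agent.H93.AR Pool.Agent.H54.LS Pool.Agent.H14.LS Pool.Agent.H83.AR
open Pool.Agent.H79.BR
open scoped ENNReal NNReal

theorem gauss_V {V : Type} [NormedAddCommGroup V] [InnerProductSpace ℝ V] [FiniteDimensional ℝ V]
    [MeasurableSpace V] [BorelSpace V] (δ : ℝ) (hδ : 0 < δ) (η : V) :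
    ∫ v : V, ((Real.exp (-(Real.pi * (‖v‖ ^ 2 / δ ^ 2))) : ℝ) : ℂ) * e (inner ℝ v η) =
      ((δ ^ (Module.finrank ℝ V) * Real.exp (-(Real.pi * (δ ^ 2 * ‖η‖ ^ 2))) : ℝ) : ℂ) := by
  have hb : 0 < (((Real.pi / δ ^ 2 : ℝ) : ℂ)).re := by
    rw [Complex.ofReal_re]
    positivity
  have h1 := GaussianFourier.integral_cexp_neg_mul_sq_norm_add hb (2 * Real.pi * Complex.I) η
  have h2 : ∀ v : V, ((Real.exp (-(Real.pi * (‖v‖ ^ 2 / δ ^ 2))) : ℝ) : ℂ) * e (inner ℝ v η) =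
      Complex.exp (-((Real.pi / δ ^ 2 : ℝ) : ℂ) * (‖v‖ : ℂ) ^ 2 +
        2 * Real.pi * Complex.I * ((inner ℝ η v : ℝ) : ℂ)) := by
    intro v
    unfold e
    rw [Complex.ofReal_exp, ← Complex.exp_add, real_inner_comm]
    congr 1
    push_cast
    ring
  rw [integral_congr_ae (Filter.Eventually.of_forall h2), h1]
  have hπ := Real.pi_pos
  have h3 : ((Real.pi : ℂ) / ((Real.pi / δ ^ 2 : ℝ) : ℂ)) = ((δ ^ 2 : ℝ) : ℂ) := by
    rw [← Complex.ofReal_div]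
    congr 1
    field_simp
  rw [h3]
  have h4 : (((δ ^ 2 : ℝ) : ℂ)) ^ ((Module.finrank ℝ V : ℂ) / 2) =
      ((δ ^ (Module.finrank ℝ V) : ℝ) : ℂ) := by
    have h5 : ((Module.finrank ℝ V : ℂ) / 2) = (((Module.finrank ℝ V : ℝ) / 2 : ℝ) : ℂ) := by
      push_cast
      ring
    rw [h5, ← Complex.ofReal_cpow (by positivity)]
    congr 1
    rw [← Real.rpow_natCast δ 2, ← Real.rpow_mul hδ.le, ← Real.rpow_natCast δ]
    congr 1
    push_cast
    ring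
  rw [h4, Complex.ofReal_mul, Complex.ofReal_exp]
  congr 2
  push_cast
  have hπ' : (Real.pi : ℂ) ≠ 0 := by exact_mod_cast hπ.ne'
  have hδ' : (δ : ℂ) ≠ 0 := by exact_mod_cast hδ.ne'
  field_simp
  ring_nf
  rw [Complex.I_sq]
  ring

theorem pf_cga : T_CGA := by
  intro n δ a η hδ
  have h1 : ∀ q : ℝ × EE n, ((Real.exp (-(Real.pi * q.1 ^ 2)) *
      Real.exp (-(Real.pi * (‖q.2‖ ^ 2 / δ ^ 2))) : ℝ) : ℂ) * e (q.1 * a + inner ℝ q.2 η) =
      (((Real.exp (-(Real.pi * q.1 ^ 2)) : ℝ) : ℂ) * e (q.1 * a)) *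
      (((Real.exp (-(Real.pi * (‖q.2‖ ^ 2 / δ ^ 2))) : ℝ) : ℂ) * e (inner ℝ q.2 η)) := by
    intro q
    rw [Pool.Agent.H83.LS.e_add]
    push_cast
    ring
  rw [integral_congr_ae (Filter.Eventually.of_forall h1)]
  rw [Measure.volume_eq_prod, integral_prod_mul (fun x : ℝ => ((Real.exp (-(Real.pi * x ^ 2)) : ℝ) : ℂ) * e (x * a))
    (fun y : EE n => ((Real.exp (-(Real.pi * (‖y‖ ^ 2 / δ ^ 2))) : ℝ) : ℂ) * e (inner ℝ y η))]
  rw [gauss_V δ hδ η]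
  have h2 := gauss_V (V := ℝ) 1 one_pos a
  have h3 : ∀ x : ℝ, ((Real.exp (-(Real.pi * (‖x‖ ^ 2 / 1 ^ 2))) : ℝ) : ℂ) * e (inner ℝ x a) =
      ((Real.exp (-(Real.pi * x ^ 2)) : ℝ) : ℂ) * e (x * a) := by
    intro x
    rw [Real.norm_eq_abs, sq_abs, one_pow, div_one, real_inner_eq_re_inner]
    simp [mul_comm]
  rw [integral_congr_ae (Filter.Eventually.of_forall h3)] at h2
  rw [h2, ← Complex.ofReal_mul]
  congr 1
  rw [one_pow, one_mul, one_pow, one_mul, Real.norm_eq_abs, sq_abs, finrank_euclideanSpace_fin]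

end Pool.Agent.H18.BR
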