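import Pool.Agent.H79.BR.Targets

/-!
Module CKA: the amplitude of the kernel of `mj` on the sphere.
-/

set_option autoImplicit false

namespace Pool.Agent.H18.BR

open MeasureTheory Set FourierTransform
open Pool.Agent.H83.LS Pool.Agent.H93.AR Pool.Agent.H54.LS Pool.Agent.H83.AR
open Pool.Agent.H79.BR
open scoped ENNReal NNReal Topology

theorem contDiff_pr (n : ℕ) : ContDiff ℝ (⊤ : ℕ∞) (pr : EE (n + 1) → EE n) := by
  rw [contDiff_euclidean]
  intro i
  have h : (fun x : EE (n + 1) => (pr x) i) = fun x : EE (n + 1) => x i.castSucc := by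
    funext x
    rfl
  rw [h]
  exact (contDiff_euclidean.1 contDiff_id) i.castSucc

theorem pr_add {n : ℕ} (x y : EE (n + 1)) : pr (x + y) = pr x + pr y := by
  ext i
  rfl

theorem pr_smul {n : ℕ} (c : ℝ) (x : EE (n + 1)) : pr (c • x) = c • pr x := by
  ext i
  rfl

theorem norm_pr_le {n : ℕ} (x : EE (n + 1)) : ‖pr x‖ ≤ ‖x‖ := by
  rw [← Pool.Agent.H54.LS.hor_eq]
  exact Pool.Agent.H54.LS.hor_le_norm x

/-- `chi (s |p|)` is smooth in `(s, p)` -/
theorem contDiff_chi_mul_norm (n : ℕ) :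
    ContDiff ℝ (⊤ : ℕ∞) (fun q : ℝ × EE n => chi (q.1 * ‖q.2‖)) := by
  rw [contDiff_iff_contDiffAt]
  intro q
  by_cases hq : q.2 = 0
  · have hc : Continuous fun q : ℝ × EE n => q.1 * ‖q.2‖ := by fun_prop
    have h0 : q.1 * ‖q.2‖ < 1 / 2 := by
      rw [hq, norm_zero, mul_zero]
      norm_num
    have h1 : (fun q : ℝ × EE n => chi (q.1 * ‖q.2‖)) =ᶠ[𝓝 q] fun _ => (0 : ℝ) := by
      filter_upwards [hc.continuousAt.eventually (Iio_mem_nhds h0)] with y hy
      by_contra h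
      have h2 := (Pool.Agent.H14.LS.chi_supp h).1
      have h3 : y.1 * ‖y.2‖ < 1 / 2 := hy
      linarith
    exact contDiffAt_const.congr_of_eventuallyEq h1
  · have h1 : ContDiffAt ℝ (⊤ : ℕ∞) (fun q : ℝ × EE n => q.1 * ‖q.2‖) q :=
      contDiffAt_fst.mul (contDiffAt_snd.norm ℝ hq)
    exact Pool.Agent.H14.LS.chi_smooth.contDiffAt.comp q h1

/-- the model amplitude -/
noncomputable def Psi (n : ℕ) (q : EE n × (ℝ × EE (n + 1))) : ℂ :=
  ((q.2.1 ^ n * (chi q.2.1 * chi (q.2.1 * ‖q.1 + pr q.2.2‖)) : ℝ) : ℂ)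

theorem contDiff_Psi (n : ℕ) : ContDiff ℝ (⊤ : ℕ∞) (Psi n) := by
  unfold Psi
  apply Complex.ofRealCLM.contDiff.comp
  apply ContDiff.mul
  · exact (contDiff_fst.comp contDiff_snd).pow n
  · apply ContDiff.mul
    · exact Pool.Agent.H14.LS.chi_smooth.comp (contDiff_fst.comp contDiff_snd)
    · have h1 : ContDiff ℝ (⊤ : ℕ∞)
          (fun q : EE n × (ℝ × EE (n + 1)) => ((q.2.1, q.1 + pr q.2.2) : ℝ × EE n)) :=
        (contDiff_fst.comp contDiff_snd).prodMk
          (contDiff_fst.add ((contDiff_pr n).comp (contDiff_snd.comp contDiff_snd)))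
      exact (contDiff_chi_mul_norm n).comp h1

theorem gj_eq (n : ℕ) (α : ℝ) (hα : 0 < α) (ζ : EE (n + 1)) (q : ℝ × EE (n + 1)) :
    gj n α (q.1, ζ + α • q.2) = Psi n (α⁻¹ • pr ζ, q) := by
  unfold gj Psi
  have h1 : hor (ζ + α • q.2) / α = ‖α⁻¹ • pr ζ + pr q.2‖ := by
    rw [Pool.Agent.H54.LS.hor_eq, pr_add, pr_smul]
    have h2 : α⁻¹ • pr ζ + pr q.2 = α⁻¹ • (pr ζ + α • pr q.2) := by
      rw [smul_add, smul_smul, inv_mul_cancel₀ hα.ne', one_smul]
    rw [h2, norm_smul, norm_inv, Real.norm_eq_abs, abs_of_pos hα, div_eq_inv_mul]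
  have h3 : q.1 * hor (ζ + α • q.2) / α = q.1 * ‖α⁻¹ • pr ζ + pr q.2‖ := by
    rw [← h1, mul_div_assoc]
  show ((q.1 ^ n * (chi q.1 * chi (q.1 * hor (ζ + α • q.2) / α)) : ℝ) : ℂ) = _
  rw [h3]

theorem iteratedFDeriv_zero_of_loc {n k : ℕ} {f : ℝ × EE n → ℂ} {q : ℝ × EE n}
    (h : f =ᶠ[𝓝 q] fun _ => (0 : ℂ)) : iteratedFDeriv ℝ k f q = 0 := by
  have h1 := (Filter.EventuallyEq.iteratedFDeriv ℝ h k).eq_of_nhds
  rw [h1]
  have h2 : iteratedFDeriv ℝ k (fun _ : ℝ × EE n => (0 : ℂ)) = 0 := iteratedFDeriv_fun_zero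
  rw [h2]
  rfl

theorem pf_cka (hCP : T_CP) : T_CKA := by
  intro n M _
  have hK : IsCompact ((Metric.closedBall (0 : EE n) 9) ×ˢ
      ((Icc (0 : ℝ) 4) ×ˢ (Metric.closedBall (0 : EE (n + 1)) (1 / 4)))) :=
    (isCompact_closedBall _ _).prod (isCompact_Icc.prod (isCompact_closedBall _ _))
  have hC : ∀ k : ℕ, ∃ C : ℝ, ∀ q ∈ (Metric.closedBall (0 : EE n) 9) ×ˢ
      ((Icc (0 : ℝ) 4) ×ˢ (Metric.closedBall (0 : EE (n + 1)) (1 / 4))),
      ‖iteratedFDeriv ℝ k (fun x => Psi n (q.1, x)) q.2‖ ≤ C := fun k =>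
    hCP (EE n) (ℝ × EE (n + 1)) ℂ k (Psi n) univ _ isOpen_univ (contDiff_Psi n).contDiffOn hK
      (subset_univ _)
  choose C hC using hC
  refine ⟨∑ k ∈ Finset.range (M + 1), |C k|, fun α hα _ => ⟨?_, ?_, ?_⟩⟩
  · have h1 : gj n α = fun q : ℝ × EE (n + 1) => Psi n (0, (q.1, α⁻¹ • q.2)) := by
      funext q
      have h2 := gj_eq n α hα 0 (q.1, α⁻¹ • q.2)
      have h3 : (0 : EE (n + 1)) + α • (α⁻¹ • q.2) = q.2 := by
        rw [smul_smul, mul_inv_cancel₀ hα.ne', one_smul, zero_add]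
      have h4 : α⁻¹ • pr (0 : EE (n + 1)) = (0 : EE n) := by
        have h5 : pr (0 : EE (n + 1)) = 0 := by
          ext i
          rfl
        rw [h5, smul_zero]
      rw [h4] at h2
      rw [← h2]
      show gj n α (q.1, q.2) = gj n α (q.1, 0 + α • (α⁻¹ • q.2))
      rw [h3]
    rw [h1]
    exact (contDiff_Psi n).comp (contDiff_const.prodMk
      (contDiff_fst.prodMk (contDiff_snd.const_smul α⁻¹)))
  · intro q hq
    have h1 : chi q.1 ≠ 0 := by
      intro h
      apply hq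
      unfold gj
      rw [h]
      simp
    have h2 := Pool.Agent.H14.LS.chi_supp h1
    constructor <;> linarith [h2.1, h2.2]
  · intro ζ _ k hk q hq
    have hB : |C k| ≤ ∑ k ∈ Finset.range (M + 1), |C k| :=
      Finset.single_le_sum (f := fun k => |C k|) (fun _ _ => abs_nonneg _)
        (Finset.mem_range.2 (Nat.lt_succ_of_le hk))
    have h0 : (fun q : ℝ × EE (n + 1) => gj n α (q.1, ζ + α • q.2)) =
        fun q => Psi n (α⁻¹ • pr ζ, q) := by
      funext q
      exact gj_eq n α hα ζ q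
    rw [h0]
    obtain ⟨p, hp⟩ : ∃ p : EE n, p = α⁻¹ • pr ζ := ⟨_, rfl⟩
    rw [← hp]
    by_cases h1 : ‖p‖ ≤ 9
    · by_cases h2 : q.1 ∈ Icc (0 : ℝ) 4
      · have h3 := hC k (p, q) ⟨by simpa using h1, h2, by simpa using hq⟩
        exact (h3.trans (le_abs_self _)).trans hB
      · have h4 : (fun q : ℝ × EE (n + 1) => Psi n (p, q)) =ᶠ[𝓝 q] fun _ => (0 : ℂ) := by
          have h5 : ∀ᶠ y : ℝ × EE (n + 1) in 𝓝 q, y.1 ∉ Icc (0 : ℝ) 4 :=
            continuous_fst.continuousAt.eventually (isClosed_Icc.isOpen_compl.mem_nhds h2)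
          filter_upwards [h5] with y hy
          have h6 : chi y.1 = 0 := by
            by_contra h
            have h7 := Pool.Agent.H14.LS.chi_supp h
            exact hy ⟨by linarith [h7.1], by linarith [h7.2]⟩
          unfold Psi
          simp [h6]
        rw [iteratedFDeriv_zero_of_loc h4, norm_zero]
        exact (abs_nonneg _).trans hB
    · push Not at h1
      have h4 : (fun q : ℝ × EE (n + 1) => Psi n (p, q)) =ᶠ[𝓝 q] fun _ => (0 : ℂ) := by
        have h5 : ∀ᶠ y : ℝ × EE (n + 1) in 𝓝 q, ‖y.2‖ < 1 / 2 :=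
          (continuous_norm.comp continuous_snd).continuousAt.eventually
            (Iio_mem_nhds (lt_of_le_of_lt hq (by norm_num)))
        filter_upwards [h5] with y hy
        have h6 : chi y.1 * chi (y.1 * ‖p + pr y.2‖) = 0 := by
          by_contra h
          rw [mul_eq_zero, not_or] at h
          have h7 := Pool.Agent.H14.LS.chi_supp h.1
          have h8 := Pool.Agent.H14.LS.chi_supp h.2
          have h9 : ‖p‖ ≤ ‖p + pr y.2‖ + ‖pr y.2‖ := by
            have := norm_sub_le (p + pr y.2) (pr y.2)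
            rwa [add_sub_cancel_right] at this
          have h10 := norm_pr_le y.2
          have h11 : 8 < ‖p + pr y.2‖ := by linarith
          nlinarith [h7.1, h8.2]
        show Psi n (p, y) = 0
        unfold Psi
        show ((y.1 ^ n * (chi y.1 * chi (y.1 * ‖p + pr y.2‖)) : ℝ) : ℂ) = 0
        rw [h6, mul_zero, Complex.ofReal_zero]
      rw [iteratedFDeriv_zero_of_loc h4, norm_zero]
      exact (abs_nonneg _).trans hB

end Pool.Agent.H18.BR
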